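import Mathlib
import Pool.Agent.N990.EJ.Stm

/-!
# Project EJ (helper990), part COR (helper572)
-/

set_option autoImplicit false

open MeasureTheory
open Pool.Agent.N988.EA

namespace Pool.Agent.N572.EJ.COR

open Pool.Agent.N990.EJ

/-- sums over the spins of the two ends -/
lemma sum_ends (F : Bool → Bool → ℝ) :
    ∑ τ : Bool → Bool, F (τ false) (τ true) =
      F true true + F true false + (F false true + F false false) := by
  rw [Fintype.sum_equiv (Equiv.boolArrowEquivProd Bool) (fun τ => F (τ false) (τ true))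
    (fun p : Bool × Bool => F p.1 p.2) (fun τ => rfl), Fintype.sum_prod_type]
  simp only [Fintype.sum_bool]

lemma corr_eq (hG : S_G) {n : ℕ} (J : Edge 2 n → ℝ) : corr J = Real.tanh (K n J) := by
  obtain ⟨C, hC, h⟩ := (hG 2).1 n J
  unfold corr
  have h1 : ∑ τ : Bool → Bool, sg (τ false) * sg (τ true) * Z J τ =
      ∑ τ : Bool → Bool, (fun a b : Bool => sg a * sg b * (C * Real.exp (K n J * sg a * sg b)))
        (τ false) (τ true) := by
    refine Finset.sum_congr rfl fun τ _ => ?_
    rw [h τ]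
  have h2 : ∑ τ : Bool → Bool, Z J τ =
      ∑ τ : Bool → Bool, (fun a b : Bool => C * Real.exp (K n J * sg a * sg b))
        (τ false) (τ true) := by
    refine Finset.sum_congr rfl fun τ _ => ?_
    rw [h τ]
  rw [h1, h2, sum_ends (fun a b => sg a * sg b * (C * Real.exp (K n J * sg a * sg b))),
    sum_ends (fun a b => C * Real.exp (K n J * sg a * sg b))]
  have e1 : sg true = 1 := rfl
  have e2 : sg false = -1 := rfl
  simp only [e1, e2]
  rw [Real.tanh_eq_sinh_div_cosh, Real.sinh_eq, Real.cosh_eq]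
  have a1 : K n J * 1 * 1 = K n J := by ring
  have a2 : K n J * 1 * -1 = -K n J := by ring
  have a3 : K n J * -1 * 1 = -K n J := by ring
  have a4 : K n J * -1 * -1 = K n J := by ring
  rw [a1, a2, a3, a4]
  have p1 := Real.exp_pos (K n J)
  have p2 := Real.exp_pos (-K n J)
  field_simp
  ring

/-- the sequence of the problem -/
lemma seq_bound (q : ℕ → ℝ) (h0 : ∀ n, 0 ≤ q n) (h1 : ∀ n, q n ≤ 1)
    (hs : ∀ n, q (n + 1) ≤ 2 * q n ^ 2) {m : ℕ} (hm : 2 * q m < 1) :
    ∃ C c : ℝ, 0 < c ∧ ∀ n : ℕ, q n ≤ C * Real.exp (-(c * 2 ^ n)) := by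
  set r : ℝ := max (2 * q m) (1 / 2) with hr
  have hr0 : 0 < r := lt_of_lt_of_le (by norm_num) (le_max_right _ _)
  have hr1 : r < 1 := max_lt hm (by norm_num)
  have key : ∀ j, 2 * q (m + j) ≤ r ^ (2 ^ j) := by
    intro j
    induction j with
    | zero =>
      simp only [add_zero, pow_zero, pow_one]
      exact le_max_left _ _
    | succ j ih =>
      have h2 := hs (m + j)
      have h3 : 0 ≤ 2 * q (m + j) := by have := h0 (m + j); linarith
      calc 2 * q (m + (j + 1)) ≤ 2 * (2 * q (m + j) ^ 2) := by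
            have : q (m + (j + 1)) ≤ 2 * q (m + j) ^ 2 := h2
            linarith
        _ = (2 * q (m + j)) ^ 2 := by ring
        _ ≤ (r ^ (2 ^ j)) ^ 2 := pow_le_pow_left₀ h3 ih 2
        _ = r ^ (2 ^ (j + 1)) := by rw [← pow_mul, pow_succ]
  set L : ℝ := -Real.log r with hL
  have hL0 : 0 < L := by
    have := Real.log_neg hr0 hr1
    linarith
  have hexp : ∀ N : ℕ, r ^ N = Real.exp (-(L * N)) := by
    intro N
    rw [hL, ← Real.rpow_natCast, Real.rpow_def_of_pos hr0]
    congr 1
    ring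
  refine ⟨Real.exp L, L / 2 ^ m, by positivity, fun n => ?_⟩
  rcases le_total m n with h | h
  · obtain ⟨j, rfl⟩ := Nat.exists_eq_add_of_le h
    have h2 := key j
    rw [hexp] at h2
    have h3 : L / 2 ^ m * 2 ^ (m + j) = L * ((2 ^ j : ℕ) : ℝ) := by
      rw [pow_add]
      push_cast
      field_simp
    rw [h3]
    have h4 : 1 ≤ Real.exp L := Real.one_le_exp hL0.le
    have h5 := Real.exp_pos (-(L * ((2 ^ j : ℕ) : ℝ)))
    have h6 := h0 (m + j)
    nlinarith
  · have h2 : L / 2 ^ m * 2 ^ n ≤ L := by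
      rw [div_mul_eq_mul_div, div_le_iff₀ (by positivity)]
      exact mul_le_mul_of_nonneg_left (pow_le_pow_right₀ (by norm_num) h) hL0.le
    rw [← Real.exp_add]
    refine (h1 n).trans (Real.one_le_exp ?_)
    linarith

lemma pm_symm : pm.map (fun x => -x) = pm := by
  have h : ∀ a : ℝ, Measure.map Neg.neg (Measure.dirac a) = Measure.dirac (-a) := fun a =>
    Measure.map_dirac' measurable_neg a
  show Measure.map Neg.neg pm = pm
  unfold pm
  rw [Measure.map_add _ _ measurable_neg, Measure.map_smul, Measure.map_smul, h, h, neg_neg,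
    add_comm]

lemma law_symm {μ : Measure ℝ} (h : Law μ) : μ.map (fun x => -x) = μ := by
  rcases h with rfl | ⟨hU, -⟩
  · exact pm_symm
  · exact hU.symm

lemma meas_tanh_sq : Measurable fun x : ℝ => Real.tanh x ^ 2 := by
  have h : Measurable Real.tanh := by
    have : Real.tanh = fun x => Real.sinh x / Real.cosh x := by
      funext x
      exact Real.tanh_eq_sinh_div_cosh x
    rw [this]
    exact Real.measurable_sinh.div Real.measurable_cosh
  exact h.pow_const 2

lemma int_le_one (ν : Measure ℝ) [IsProbabilityMeasure ν] :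
    0 ≤ ∫ x, Real.tanh x ^ 2 ∂ν ∧ ∫ x, Real.tanh x ^ 2 ∂ν ≤ 1 := by
  refine ⟨integral_nonneg fun x => sq_nonneg _, ?_⟩
  have h : ‖∫ x, Real.tanh x ^ 2 ∂ν‖ ≤ 1 * ν.real Set.univ := by
    refine norm_integral_le_of_norm_le_const (Filter.Eventually.of_forall fun x => ?_)
    rw [Real.norm_eq_abs, abs_of_nonneg (sq_nonneg _)]
    exact (Real.tanh_sq_lt_one x).le
  rw [probReal_univ, mul_one] at h
  exact (le_abs_self _).trans h

theorem t_cor : Pool.Agent.N990.EJ.S_COR := by
  intro hG hH hT hT1 hLIM μ hμ hlaw β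
  have hmb : Measurable fun x : ℝ => β * x := measurable_const_mul β
  set ν : Measure ℝ := μ.map fun x => β * x with hν
  haveI : IsProbabilityMeasure ν := Measure.isProbabilityMeasure_map hmb.aemeasurable
  have hsym : ν.map (fun x => -x) = ν := by
    rw [hν, Measure.map_map measurable_neg hmb]
    conv_rhs => rw [← law_symm hlaw, Measure.map_map hmb measurable_neg]
    congr 1
    funext x
    show -(β * x) = β * -x
    ring
  -- the laws of the effective couplings
  have hprob : ∀ n, IsProbabilityMeasure (lw ν 2 n) := by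
    intro n
    obtain ⟨h1, h2, -⟩ := hH ν 2 n
    rw [← h2]
    haveI : IsProbabilityMeasure (P ν 2 n) := by unfold P; infer_instance
    exact Measure.isProbabilityMeasure_map h1.aemeasurable
  have hint : ∀ n : ℕ, ∫ J, corr (fun e => β * J e) ^ 2 ∂(Measure.pi fun _ : Edge 2 n => μ) =
      ∫ x, Real.tanh x ^ 2 ∂(lw ν 2 n) := by
    intro n
    obtain ⟨h1, h2, -⟩ := hH ν 2 n
    have h3 : (Measure.pi fun _ : Edge 2 n => μ).map (fun J e => β * J e) = P ν 2 n := by
      unfold P
      exact Measure.pi_map_pi (f := fun _ x => β * x) (fun _ => hmb.aemeasurable)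
    have h4 : Measurable fun (J : Edge 2 n → ℝ) (e : Edge 2 n) => β * J e :=
      measurable_pi_lambda _ fun e => hmb.comp (measurable_pi_apply e)
    rw [← h2, ← h3, Measure.map_map h1 h4,
      integral_map (h1.comp h4).aemeasurable meas_tanh_sq.aestronglyMeasurable]
    refine integral_congr_ae (Filter.Eventually.of_forall fun J => ?_)
    show corr (fun e => β * J e) ^ 2 = Real.tanh (K n fun e => β * J e) ^ 2
    rw [corr_eq hG]
  have hstep : ∀ n, ∫ x, Real.tanh x ^ 2 ∂(lw ν 2 (n + 1)) ≤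
      2 * (∫ x, Real.tanh x ^ 2 ∂(lw ν 2 n)) ^ 2 := by
    intro n
    haveI := hprob n
    obtain ⟨-, -, -, -, h5⟩ := hH ν 2 n
    have h6 := hT 2 (lw ν 2 n) (h5 hsym)
    push_cast at h6
    exact h6
  have hm : ∃ m : ℕ, 2 * ∫ x, Real.tanh x ^ 2 ∂(lw ν 2 m) < 1 := by
    rcases hlaw with hpm | ⟨hU, c, hc, hi⟩
    · obtain ⟨q, -, hq1, hq2⟩ := hT1 β
      refine ⟨1, ?_⟩
      have h7 : lw ν 2 1 = lawstep 2 (pm.map fun x => β * x) := by
        show lawstep 2 ν = _
        rw [hν, hpm]
      rw [h7]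
      linarith
    · exact hLIM μ hμ hU c hc hi β
  obtain ⟨m, hm⟩ := hm
  obtain ⟨C, c, hc, h⟩ := seq_bound (fun n => ∫ x, Real.tanh x ^ 2 ∂(lw ν 2 n))
    (fun n => by haveI := hprob n; exact (int_le_one _).1)
    (fun n => by haveI := hprob n; exact (int_le_one _).2) hstep hm
  refine ⟨C, c, hc, fun n => ?_⟩
  rw [hint n]
  exact h n

end Pool.Agent.N572.EJ.COR
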